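import Pool.Agent.H470.Za6
import Pool.Agent.H470.Za7

set_option autoImplicit false

/-!
# MP_c51bc2_nt: positive and negative parts of Hardy's function and of short Riemann-Siegel sums

`Z(t) = e^{iθ(t)} ζ(1/2+it)` is Hardy's function, `D_N(t)` the sum of the first `N` terms of the Dirichlet series of
zeta at `1/2+it`, and `S_M(t) = 2 Re (e^{iθ(t)} D_M(t))` is the sum of the first `M` terms of the Riemann-Siegel formula.

For every real `β > 0` the moments of order `β` of the positive and of the negative part of `S_M` over `[T,2T]`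
are both `(A + o(1)) T (log M)^{β²/4}`, for `M = T^{o(1)}`, with the same constant `A > 0`. The same holds for
`2 (Z - Re (e^{iθ} D_N))` with `log (T/N)` in place of `log M`, for `N = T^{1-o(1)}`, `N ≤ T/(log T)^4`. The case `β = 1`
is the shape asked for `Z` itself.
-/

open Complex MeasureTheory Set Filter Topology

namespace Pool.Agent.Results.MP_c51bc2_nt.SignedShortRiemannSiegel

/-- `e^{iθ(t)} = π^{-it/2} Γ(1/4 + it/2) / |Γ(1/4 + it/2)|` -/
noncomputable def phase (t : ℝ) : ℂ :=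
  (Real.pi : ℂ) ^ (-(I * (t : ℂ) / 2)) * (Complex.Gamma (1 / 4 + I * (t : ℂ) / 2) / (‖Complex.Gamma (1 / 4 + I * (t : ℂ) / 2)‖ : ℂ))

/-- Hardy's function `Z(t) = e^{iθ(t)} ζ(1/2 + it)` (the product is real, see `result`) -/
noncomputable def Z (t : ℝ) : ℝ := (phase t * riemannZeta (1 / 2 + I * (t : ℂ))).re

/-- the first `N` terms of the Dirichlet series of zeta at `1/2 + it` -/
noncomputable def D (N : ℕ) (t : ℝ) : ℂ := ∑ n ∈ Finset.Icc 1 N, (n : ℂ) ^ (-(1 / 2 + I * (t : ℂ)))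

/-- the first `M` terms of the Riemann-Siegel formula, `2 ∑_{n ≤ M} n^{-1/2} cos (θ(t) - t log n)` -/
noncomputable def S (M : ℕ) (t : ℝ) : ℝ := 2 * (phase t * D M t).re

/-- the integral over `[T,2T]` of the power `β` of the positive part of `f` -/
noncomputable def part (β : ℝ) (f : ℝ → ℝ) (T : ℝ) : ℝ := ∫ t in T..(2 * T), max (f t) 0 ^ β

/-- the mean value of `Φ` over the unit circle -/
noncomputable def circleMean (Φ : ℂ → ℝ) : ℝ := (1 / (2 * Real.pi)) * ∫ y in (0:ℝ)..(2 * Real.pi), Φ (cexp ((y : ℂ) * I))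

theorem result (β : ℝ) (hβ : 0 < β) :
    -- Hardy's function is real
    (∀ t : ℝ, (Z t : ℂ) = phase t * riemannZeta (1 / 2 + I * (t : ℂ))) ∧
    -- positive and negative parts
    (∃ A : ℝ, 0 < A ∧ ∀ ε : ℝ, 0 < ε → ∃ B : ℕ,
      (∀ M : ℕ, B ≤ M → ∀ T : ℝ, (M : ℝ) ^ B ≤ T →
        |part β (S M) T / (T * Real.log M ^ (β ^ 2 / 4)) - A| ≤ ε ∧
        |part β (fun t => -S M t) T / (T * Real.log M ^ (β ^ 2 / 4)) - A| ≤ ε) ∧
      (∀ T : ℝ, (B : ℝ) ≤ T → ∀ N : ℕ, 1 ≤ N → (N : ℝ) * Real.log T ^ 4 ≤ T → (T / N) ^ B ≤ T →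
        |part β (fun t => 2 * (Z t - (phase t * D N t).re)) T / (T * Real.log (T / N) ^ (β ^ 2 / 4)) - A| ≤ ε ∧
        |part β (fun t => -(2 * (Z t - (phase t * D N t).re))) T / (T * Real.log (T / N) ^ (β ^ 2 / 4)) - A| ≤ ε) ∧
      (∀ T : ℝ, (B : ℝ) ≤ T → ∀ N : ℕ, 1 ≤ N → (N : ℝ) ≤ T → (T / N) ^ B ≤ T →
        |part β Z T - part β (fun t => (phase t * D N t).re) T| ≤ ε * ∫ t in T..(2 * T), |Z t| ^ β ∧
        |part β (fun t => -Z t) T - part β (fun t => -(phase t * D N t).re) T| ≤ ε * ∫ t in T..(2 * T), |Z t| ^ β)) ∧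
    -- all positively homogeneous functionals
    ∃ c : ℝ, 0 < c ∧ ∀ Φ : ℂ → ℝ, Continuous Φ → (∀ (r : ℝ) (z : ℂ), 0 ≤ r → Φ (r * z) = r ^ β * Φ z) →
      ∀ ε : ℝ, 0 < ε → ∃ B : ℕ,
      (∀ M : ℕ, B ≤ M → ∀ T : ℝ, (M : ℝ) ^ B ≤ T →
        |(∫ t in T..(2 * T), Φ (phase t * D M t)) / (T * Real.log M ^ (β ^ 2 / 4)) - c * circleMean Φ| ≤ ε) ∧
      (∀ T : ℝ, (B : ℝ) ≤ T → ∀ N : ℕ, 1 ≤ N → (N : ℝ) * Real.log T ^ 4 ≤ T → (T / N) ^ B ≤ T →
        |(∫ t in T..(2 * T), Φ (phase t * (riemannZeta (1 / 2 + I * (t : ℂ)) - D N t))) / (T * Real.log (T / N) ^ (β ^ 2 / 4)) -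
          c * circleMean Φ| ≤ ε) ∧
      (∀ T : ℝ, (B : ℝ) ≤ T → ∀ N : ℕ, 1 ≤ N → (N : ℝ) ≤ T → (T / N) ^ B ≤ T →
        |(∫ t in T..(2 * T), Φ (Z t)) - ∫ t in T..(2 * T), Φ (phase t * D N t)| ≤ ε * ∫ t in T..(2 * T), |Z t| ^ β) := by
  have hreal : ∀ t : ℝ, (Z t : ℂ) = phase t * riemannZeta (1 / 2 + I * (t : ℂ)) := fun t => Pool.Agent.H470.hph_real t
  have habs : ∀ t : ℝ, |Z t| = ‖Pool.Agent.H470.zz t‖ := by
    intro t
    have h1 := congrArg norm (hreal t)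
    rw [Complex.norm_real, Real.norm_eq_abs, norm_mul] at h1
    rw [h1]
    have h2 : ‖phase t‖ = 1 := Pool.Agent.H470.hph_norm t
    rw [h2, one_mul]
    rfl
  obtain ⟨c, hc, hsum⟩ := Pool.Agent.H470.sums_unif hβ
  have hgen : ∀ Φ : ℂ → ℝ, Continuous Φ → (∀ (r : ℝ) (z : ℂ), 0 ≤ r → Φ (r * z) = r ^ β * Φ z) →
      ∀ ε : ℝ, 0 < ε → ∃ B : ℕ,
      (∀ M : ℕ, B ≤ M → ∀ T : ℝ, (M : ℝ) ^ B ≤ T →
        |(∫ t in T..(2 * T), Φ (phase t * D M t)) / (T * Real.log M ^ (β ^ 2 / 4)) - c * circleMean Φ| ≤ ε) ∧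
      (∀ T : ℝ, (B : ℝ) ≤ T → ∀ N : ℕ, 1 ≤ N → (N : ℝ) * Real.log T ^ 4 ≤ T → (T / N) ^ B ≤ T →
        |(∫ t in T..(2 * T), Φ (phase t * (riemannZeta (1 / 2 + I * (t : ℂ)) - D N t))) / (T * Real.log (T / N) ^ (β ^ 2 / 4)) -
          c * circleMean Φ| ≤ ε) ∧
      (∀ T : ℝ, (B : ℝ) ≤ T → ∀ N : ℕ, 1 ≤ N → (N : ℝ) ≤ T → (T / N) ^ B ≤ T →
        |(∫ t in T..(2 * T), Φ (Z t)) - ∫ t in T..(2 * T), Φ (phase t * D N t)| ≤ ε * ∫ t in T..(2 * T), |Z t| ^ β) := by
    intro Φ hΦ hom ε hε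
    obtain ⟨A1, h1⟩ := Pool.Agent.H470.short_signed hβ hc hsum Pool.Agent.H470.hph_ph hΦ hom hε
    obtain ⟨A2, h2⟩ := Pool.Agent.H470.long_signed hβ hc hsum Pool.Agent.H470.hph_ph hΦ hom hε
    obtain ⟨A3, h3⟩ := Pool.Agent.H470.cmp_signed hβ Pool.Agent.H470.hph_ph hΦ hom hε
    refine ⟨A1 + A2 + A3 + 3, ?_, ?_, ?_⟩
    · intro M hM T hT
      have hM1 : (1 : ℝ) ≤ M := by exact_mod_cast (by omega : 1 ≤ M)
      have := h1 M (by omega) T ((pow_le_pow_right₀ hM1 (by omega)).trans hT)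
      rw [one_div, inv_mul_eq_div, div_div] at this
      exact this
    · intro T hT N hN hNT hY
      have hT1 : (3:ℝ) ≤ T := le_trans (by exact_mod_cast (by omega : 3 ≤ A1 + A2 + A3 + 3)) hT
      have hN0 : (0:ℝ) < N := by exact_mod_cast hN
      have hL1 : 1 ≤ Real.log T := by
        rw [Real.le_log_iff_exp_le (by linarith)]
        have := Real.exp_one_lt_d9
        linarith
      have hY1 : 1 ≤ T / N := by
        rw [le_div_iff₀ hN0, one_mul]
        exact (le_mul_of_one_le_right hN0.le (one_le_pow₀ hL1)).trans hNT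
      have := h2 T (le_trans (by exact_mod_cast (by omega : A2 ≤ A1 + A2 + A3 + 3)) hT) N hN hNT ((pow_le_pow_right₀ hY1 (by omega)).trans hY)
      rw [one_div, inv_mul_eq_div, div_div] at this
      exact this
    · intro T hT N hN hNT hY
      have hN0 : (0:ℝ) < N := by exact_mod_cast hN
      have hY1 : 1 ≤ T / N := by rw [le_div_iff₀ hN0, one_mul]; exact hNT
      have := h3 T (le_trans (by exact_mod_cast (by omega : A3 ≤ A1 + A2 + A3 + 3)) hT) N hN hNT ((pow_le_pow_right₀ hY1 (by omega)).trans hY)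
      simp_rw [hreal, habs]
      exact this
  refine ⟨hreal, ?_, c, hc, hgen⟩
  -- the positive and the negative part
  have hcont : ∀ a : ℝ, Continuous fun z : ℂ => max (a * z.re) 0 ^ β := fun a =>
    ((continuous_const.mul Complex.continuous_re).max continuous_const).rpow_const fun _ => Or.inr hβ.le
  have hhom : ∀ a : ℝ, ∀ (r : ℝ) (z : ℂ), 0 ≤ r → (fun z : ℂ => max (a * z.re) 0 ^ β) (r * z) = r ^ β * (fun z : ℂ => max (a * z.re) 0 ^ β) z := by
    intro a r z hr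
    show max (a * ((r : ℂ) * z).re) 0 ^ β = r ^ β * max (a * z.re) 0 ^ β
    rw [Complex.re_ofReal_mul, ← Real.mul_rpow hr (le_max_right _ _), mul_max_of_nonneg _ _ hr, mul_zero]
    congr 2
    ring
  have hneg : circleMean (fun z : ℂ => max (-2 * z.re) 0 ^ β) = circleMean (fun z : ℂ => max (2 * z.re) 0 ^ β) := by
    have h1 := Pool.Agent.H470.cm_neg (fun z : ℂ => max (2 * z.re) 0 ^ β)
    have h2 : (fun z : ℂ => (fun z : ℂ => max (2 * z.re) 0 ^ β) (-z)) = fun z : ℂ => max (-2 * z.re) 0 ^ β := by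
      funext z
      show max (2 * (-z).re) 0 ^ β = max (-2 * z.re) 0 ^ β
      rw [Complex.neg_re, mul_neg, neg_mul]
    rw [h2] at h1
    exact h1
  have hpos : 0 < circleMean (fun z : ℂ => max (2 * z.re) 0 ^ β) := by
    unfold circleMean
    refine mul_pos (by have := Real.pi_pos; positivity) ?_
    refine intervalIntegral.integral_pos (by have := Real.pi_pos; positivity) ?_ (fun y _ => Real.rpow_nonneg (le_max_right _ _) _) ⟨0, ⟨le_rfl, by have := Real.pi_pos; positivity⟩, ?_⟩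
    · refine ((hcont 2).comp (Complex.continuous_exp.comp (Continuous.mul Complex.continuous_ofReal continuous_const))).continuousOn
    · show 0 < max (2 * (cexp (((0:ℝ) : ℂ) * I)).re) 0 ^ β
      rw [Complex.ofReal_zero, zero_mul, Complex.exp_zero, Complex.one_re]
      exact Real.rpow_pos_of_pos (by norm_num) _
  have hsub : ∀ (N : ℕ) (t : ℝ), (phase t * (riemannZeta (1 / 2 + I * (t : ℂ)) - D N t)).re = Z t - (phase t * D N t).re := by
    intro N t
    rw [mul_sub, Complex.sub_re]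
    rfl
  refine ⟨c * circleMean (fun z : ℂ => max (2 * z.re) 0 ^ β), mul_pos hc hpos, ?_⟩
  intro ε hε
  obtain ⟨B1, a1, a2, -⟩ := hgen _ (hcont 2) (hhom 2) ε hε
  obtain ⟨B2, b1, b2, -⟩ := hgen _ (hcont (-2)) (hhom (-2)) ε hε
  obtain ⟨B3, -, -, c3⟩ := hgen _ (hcont 1) (hhom 1) ε hε
  obtain ⟨B4, -, -, d3⟩ := hgen _ (hcont (-1)) (hhom (-1)) ε hε
  rw [hneg] at b1 b2
  refine ⟨B1 + B2 + B3 + B4 + 3, ?_, ?_, ?_⟩
  · intro M hM T hT
    have hM1 : (1 : ℝ) ≤ M := by exact_mod_cast (by omega : 1 ≤ M)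
    refine ⟨a1 M (by omega) T ((pow_le_pow_right₀ hM1 (by omega)).trans hT), ?_⟩
    have h := b1 M (by omega) T ((pow_le_pow_right₀ hM1 (by omega)).trans hT)
    have e1 : part β (fun t => -S M t) T = ∫ t in T..(2 * T), max (-2 * (phase t * D M t).re) 0 ^ β := by
      unfold part S
      congr 1
      funext t
      rw [neg_mul]
    rw [e1]
    exact h
  · intro T hT N hN hNT hY
    have hT1 : (3:ℝ) ≤ T := le_trans (by exact_mod_cast (by omega : 3 ≤ B1 + B2 + B3 + B4 + 3)) hT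
    have hN0 : (0:ℝ) < N := by exact_mod_cast hN
    have hL1 : 1 ≤ Real.log T := by
      rw [Real.le_log_iff_exp_le (by linarith)]
      have := Real.exp_one_lt_d9
      linarith
    have hY1 : 1 ≤ T / N := by
      rw [le_div_iff₀ hN0, one_mul]
      exact (le_mul_of_one_le_right hN0.le (one_le_pow₀ hL1)).trans hNT
    have g1 := a2 T (le_trans (by exact_mod_cast (by omega : B1 ≤ B1 + B2 + B3 + B4 + 3)) hT) N hN hNT ((pow_le_pow_right₀ hY1 (by omega)).trans hY)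
    have g2 := b2 T (le_trans (by exact_mod_cast (by omega : B2 ≤ B1 + B2 + B3 + B4 + 3)) hT) N hN hNT ((pow_le_pow_right₀ hY1 (by omega)).trans hY)
    simp only [hsub] at g1 g2
    refine ⟨g1, ?_⟩
    have e1 : part β (fun t => -(2 * (Z t - (phase t * D N t).re))) T = ∫ t in T..(2 * T), max (-2 * (Z t - (phase t * D N t).re)) 0 ^ β := by
      unfold part
      congr 1
      funext t
      rw [neg_mul]
    rw [e1]
    exact g2
  · intro T hT N hN hNT hY
    have hN0 : (0:ℝ) < N := by exact_mod_cast hN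
    have hY1 : 1 ≤ T / N := by rw [le_div_iff₀ hN0, one_mul]; exact hNT
    have g1 := c3 T (le_trans (by exact_mod_cast (by omega : B3 ≤ B1 + B2 + B3 + B4 + 3)) hT) N hN hNT ((pow_le_pow_right₀ hY1 (by omega)).trans hY)
    have g2 := d3 T (le_trans (by exact_mod_cast (by omega : B4 ≤ B1 + B2 + B3 + B4 + 3)) hT) N hN hNT ((pow_le_pow_right₀ hY1 (by omega)).trans hY)
    simp only [Complex.ofReal_re, one_mul] at g1
    simp only [Complex.ofReal_re, neg_mul, one_mul] at g2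
    exact ⟨g1, g2⟩

end Pool.Agent.Results.MP_c51bc2_nt.SignedShortRiemannSiegel
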